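import Mathlib
import Pool.Agent.Q115.WheelFour

set_option autoImplicit false

/-!
# The homomorphism threshold can be smaller than the blowup threshold

For the wheel with four spokes `W4` (that is, the complete tripartite graph with part sizes
`1, 2, 2`) the homomorphism threshold is at most `499/1000` while the blowup threshold is `1/2`.
-/

namespace Pool.Agent.Results.MP_dfc8ea_co.FourWheel

/-- `G` is maximal `H`-free: it has no copy of `H` as a subgraph, but adding any edge between two
distinct non-adjacent vertices creates one. -/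
def MaximalFree {W V : Type} (H : SimpleGraph W) (G : SimpleGraph V) : Prop :=
  H.Free G ∧ ∀ u v : V, u ≠ v → ¬ G.Adj u v → ¬ H.Free (G ⊔ SimpleGraph.edge u v)

/-- `G` is a blowup of `F`: the vertices of `G` are partitioned into nonempty classes `π ⁻¹ {x}`,
one for every vertex `x` of `F`, and `u, v` are adjacent in `G` iff `π u, π v` are adjacent
in `F`. -/
def IsBlowup {V W : Type} (G : SimpleGraph V) (F : SimpleGraph W) : Prop :=
  ∃ π : V → W, Function.Surjective π ∧ ∀ u v : V, G.Adj u v ↔ F.Adj (π u) (π v)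

open Classical in
/-- The homomorphism threshold of `H`. -/
noncomputable def deltaHom {U : Type} (H : SimpleGraph U) : ℝ :=
  sInf {α : ℝ | 0 ≤ α ∧ ∃ (W : Type) (_ : Fintype W) (F : SimpleGraph W), H.Free F ∧
    ∀ (V : Type) [Fintype V] (G : SimpleGraph V),
      H.Free G → α * Fintype.card V ≤ (G.minDegree : ℝ) → Nonempty (G →g F)}

open Classical in
/-- The blowup threshold of `H`. -/
noncomputable def deltaB {U : Type} (H : SimpleGraph U) : ℝ :=
  sInf {α : ℝ | 0 ≤ α ∧ ∃ C : ℕ, ∀ (V : Type) [Fintype V] (G : SimpleGraph V),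
    MaximalFree H G → α * Fintype.card V ≤ (G.minDegree : ℝ) →
    ∃ (W : Type) (_ : Fintype W) (F : SimpleGraph W), Fintype.card W ≤ C ∧ IsBlowup G F}

/-- The wheel with four spokes: the hub `0` is joined to the four-cycle `1, 2, 3, 4`. -/
def W4 : SimpleGraph (Fin 5) := Q115.WheelFour.W4

open Classical in
theorem deg_of_min {V : Type} [Fintype V] (G : SimpleGraph V) (α : ℝ)
    (h : α * Fintype.card V ≤ (G.minDegree : ℝ)) (v : V) :
    α * Fintype.card V ≤ (G.degree v : ℝ) :=
  h.trans (by exact_mod_cast G.minDegree_le_degree v)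

theorem deltaHom_le : deltaHom W4 ≤ 499 / 1000 := by
  classical
  apply csInf_le ⟨0, fun α hα => hα.1⟩
  refine ⟨by norm_num, ?_⟩
  obtain ⟨W, hW, F, hF, ⟨ψ⟩, hsmall⟩ := Q115.WheelFour.universal 10000000
  refine ⟨W, hW, F, hF, ?_⟩
  intro V _ G hG hdeg
  by_cases hn : 10000000 ≤ Fintype.card V
  · obtain ⟨c, hc⟩ := Q115.WheelFour.structure_thm G hG hn (by
      intro v
      have h1 := deg_of_min G _ hdeg v
      have h2 : (499 * Fintype.card V : ℝ) ≤ 1000 * G.degree v := by linarith
      exact_mod_cast h2)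
    obtain ⟨φ⟩ := Q115.WheelFour.hom_K4 G c hc
    exact ⟨ψ.comp φ⟩
  · push Not at hn
    exact hsmall V G hn hG

theorem maximal_K (m : ℕ) : MaximalFree W4 (Q115.WheelFour.K m) :=
  ⟨Q115.WheelFour.K_free m, fun u v huv hadj => Q115.WheelFour.K_maximal m u v huv hadj⟩

open Classical in
theorem minDegree_K (m : ℕ) (hm : 1 ≤ m) :
    Fintype.card (Bool × Fin m × Bool) < 2 * (Q115.WheelFour.K m).minDegree := by
  have : Nonempty (Bool × Fin m × Bool) := ⟨(true, ⟨0, hm⟩, true)⟩
  obtain ⟨v, hv⟩ := (Q115.WheelFour.K m).exists_minimal_degree_vertex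
  rw [hv]
  exact Q115.WheelFour.K_degree m v

theorem blowup_K (m : ℕ) {W : Type} [Fintype W] (F : SimpleGraph W)
    (h : IsBlowup (Q115.WheelFour.K m) F) : 4 * m ≤ Fintype.card W := by
  obtain ⟨π, _, hπ⟩ := h
  rw [← Q115.WheelFour.card_K m]
  apply Fintype.card_le_of_injective π
  intro u v huv
  apply Q115.WheelFour.K_twin_free m
  intro w
  rw [hπ, hπ, huv]

theorem deltaB_eq : deltaB W4 = 1 / 2 := by
  classical
  have hmem : ∀ α : ℝ, 1 / 2 < α → α ∈ {α : ℝ | 0 ≤ α ∧ ∃ C : ℕ, ∀ (V : Type) [Fintype V]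
      (G : SimpleGraph V), MaximalFree W4 G → α * Fintype.card V ≤ (G.minDegree : ℝ) →
      ∃ (W : Type) (_ : Fintype W) (F : SimpleGraph W), Fintype.card W ≤ C ∧ IsBlowup G F} := by
    intro α hα
    obtain ⟨N, hN⟩ := Q115.WheelFour.bounded_order α hα
    refine ⟨by linarith, N, ?_⟩
    intro V _ G hG hdeg
    exact ⟨V, inferInstance, G, hN V G hG.1 (deg_of_min G α hdeg), id, Function.surjective_id,
      fun u v => Iff.rfl⟩
  apply le_antisymm
  · apply le_of_forall_pos_le_add
    intro ε hε
    exact csInf_le ⟨0, fun α hα => hα.1⟩ (hmem (1 / 2 + ε) (by linarith))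
  · apply le_csInf ⟨1, hmem 1 (by norm_num)⟩
    rintro α ⟨_, C, hC⟩
    by_contra hlt
    push Not at hlt
    obtain ⟨W, _, F, hW, hF⟩ := hC _ (Q115.WheelFour.K (C + 1)) (maximal_K (C + 1)) (by
      have h1 := minDegree_K (C + 1) (by omega)
      have h2 : (Fintype.card (Bool × Fin (C + 1) × Bool) : ℝ) <
          2 * ((Q115.WheelFour.K (C + 1)).minDegree : ℝ) := by exact_mod_cast h1
      have h3 : (0 : ℝ) ≤ Fintype.card (Bool × Fin (C + 1) × Bool) := Nat.cast_nonneg _
      nlinarith)
    have := blowup_K (C + 1) F hF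
    omega

/-- For the wheel with four spokes the homomorphism threshold is at most `499/1000` and the blowup
threshold equals `1/2`; in particular the two thresholds differ. -/
theorem result : deltaHom W4 ≤ 499 / 1000 ∧ deltaB W4 = 1 / 2 :=
  ⟨deltaHom_le, deltaB_eq⟩

end Pool.Agent.Results.MP_dfc8ea_co.FourWheel
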